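import Pool.Agent.L0h75.PA.Stm

/-!
# PA: the order at the centre of a product of Hecke L-functions
-/

set_option autoImplicit false

namespace Pool.Agent.L0h74.PA

open Pool.Agent.L0h75.PA

/-- the order of a product -/
theorem order_prod {ι : Type*} (s : Finset ι) (f : ι → ℂ → ℂ) (z : ℂ)
    (hf : ∀ i ∈ s, AnalyticAt ℂ (f i) z) :
    analyticOrderAt (fun x => ∏ i ∈ s, f i x) z = ∑ i ∈ s, analyticOrderAt (f i) z := by
  classical
  induction s using Finset.induction_on with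
  | empty =>
    simp only [Finset.prod_empty, Finset.sum_empty]
    rw [analyticAt_const.analyticOrderAt_eq_zero]
    exact one_ne_zero
  | insert i s hi ih =>
    have h1 := ih fun j hj => hf j (Finset.mem_insert_of_mem hj)
    have e : (fun x => ∏ j ∈ insert i s, f j x) = f i * fun x => ∏ j ∈ s, f j x := by
      funext x
      rw [Finset.prod_insert hi]
      rfl
    rw [e, analyticOrderAt_mul (hf i (Finset.mem_insert_self i s)), h1, Finset.sum_insert hi]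
    exact Finset.analyticAt_fun_prod s fun j hj => hf j (Finset.mem_insert_of_mem hj)

theorem even_prod {ι : Type*} [Fintype ι] (f : ι → ℂ → ℂ) (z : ℂ)
    (hf : ∀ i, Differentiable ℂ (f i))
    (hr : ∀ i, ∃ r : ℕ, analyticOrderAt (f i) z = ((2 * r : ℕ) : ℕ∞)) :
    ∃ r : ℕ, analyticOrderAt (fun x => ∏ i, f i x) z = ((2 * r : ℕ) : ℕ∞) := by
  choose r hr using hr
  refine ⟨∑ i, r i, ?_⟩
  rw [order_prod _ _ _ fun i _ => (hf i).analyticAt z, Finset.sum_congr rfl fun i _ => hr i,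
    Finset.mul_sum, Nat.cast_sum]

/-- positive twists, odd `k` -/
theorem even_pos (par : S_PAR) {n M : ℕ} {d : Fin n → ℕ}
    (h : ∀ T : Finset (Fin n), ∃ D j : ℕ, j ≠ 0 ∧ (Squarefree D ∧ ¬ 7 ∣ D) ∧
      M * ∏ i ∈ T, d i = D * j ^ 2) (k : ℕ) (hk : Odd k) :
    ∃ L : Finset (Fin n) → ℂ → ℂ, (∀ T, ∃ D j : ℕ, j ≠ 0 ∧ (Squarefree D ∧ ¬ 7 ∣ D) ∧
      M * ∏ i ∈ T, d i = D * j ^ 2 ∧ IsHecke (D : ℤ) k (L T)) ∧
      ∃ r : ℕ, analyticOrderAt (fun s => ∏ T : Finset (Fin n), L T s) (k : ℂ) =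
        ((2 * r : ℕ) : ℕ∞) := by
  choose D j hj hD he using h
  have hk1 : 1 ≤ k := hk.pos
  have h1 : ∀ T, ∃ F : ℂ → ℂ, IsHecke (D T : ℤ) k F ∧ ∃ r : ℕ, analyticOrderAt F (k : ℂ) =
      ((2 * r : ℕ) : ℕ∞) := fun T =>
    par (D T : ℤ) k (by rw [← Int.squarefree_natAbs]; exact (hD T).1)
      (fun h7 => (hD T).2 (by exact_mod_cast h7)) hk1
      (Or.inl ⟨by exact_mod_cast Nat.pos_of_ne_zero (hD T).1.ne_zero, hk⟩)
  choose L hL hr using h1
  exact ⟨L, fun T => ⟨D T, j T, hj T, hD T, he T, hL T⟩,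
    even_prod L _ (fun T => (hL T).1) hr⟩

/-- negative twists, even `k` -/
theorem even_neg (par : S_PAR) {n M : ℕ} {d : Fin n → ℕ}
    (h : ∀ T : Finset (Fin n), ∃ D j : ℕ, j ≠ 0 ∧ (Squarefree D ∧ ¬ 7 ∣ D) ∧
      M * ∏ i ∈ T, d i = D * j ^ 2) (k : ℕ) (hk1 : 0 < k) (hk : Even k) :
    ∃ L : Finset (Fin n) → ℂ → ℂ, (∀ T, ∃ D j : ℕ, j ≠ 0 ∧ (Squarefree D ∧ ¬ 7 ∣ D) ∧
      M * ∏ i ∈ T, d i = D * j ^ 2 ∧ IsHecke (-(D : ℤ)) k (L T)) ∧
      ∃ r : ℕ, analyticOrderAt (fun s => ∏ T : Finset (Fin n), L T s) (k : ℂ) =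
        ((2 * r : ℕ) : ℕ∞) := by
  choose D j hj hD he using h
  have h1 : ∀ T, ∃ F : ℂ → ℂ, IsHecke (-(D T : ℤ)) k F ∧ ∃ r : ℕ, analyticOrderAt F (k : ℂ) =
      ((2 * r : ℕ) : ℕ∞) := fun T =>
    par (-(D T : ℤ)) k (by rw [← Int.squarefree_natAbs, Int.natAbs_neg]; exact (hD T).1)
      (fun h7 => (hD T).2 (by rw [dvd_neg] at h7; exact_mod_cast h7)) hk1
      (Or.inr ⟨by
        have : (0 : ℤ) < D T := by exact_mod_cast Nat.pos_of_ne_zero (hD T).1.ne_zero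
        omega, hk⟩)
  choose L hL hr using h1
  exact ⟨L, fun T => ⟨D T, j T, hj T, hD T, he T, hL T⟩,
    even_prod L _ (fun T => (hL T).1) hr⟩

end Pool.Agent.L0h74.PA
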