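import Pool.Agent.L0h75.PA.All
import Pool.Agent.L0h74.PA.Prod

/-!
# PA: parity of the orders at the centre, unconditionally
-/

set_option autoImplicit false

namespace Pool.Agent.L0h74.PA

theorem par : Pool.Agent.L0h75.PA.S_PAR := Pool.Agent.L0h75.PA.t_PAR

end Pool.Agent.L0h74.PA
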