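import Mathlib

/-!
# PA, module EVO: parity of the order at the centre
-/

set_option autoImplicit false

namespace Pool.Agent.L0h74.PA

open Filter Topology

/-- the functional equation with the sign `1` and the order at the centre -/
theorem even_of {A : ℝ} (hA : 0 < A) {m : ℕ} (hm : 1 ≤ m) {F : ℂ → ℂ} (hF : Differentiable ℂ F)
    (hne : analyticOrderAt F (m : ℂ) ≠ ⊤)
    (hfe : ∀ s : ℂ, 0 < s.re → s.re < 2 * m → (A : ℂ) ^ s * Complex.Gamma s * F s =
      (A : ℂ) ^ (2 * (m : ℂ) - s) * Complex.Gamma (2 * (m : ℂ) - s) * F (2 * (m : ℂ) - s)) :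
    ∃ r : ℕ, analyticOrderAt F (m : ℂ) = ((2 * r : ℕ) : ℕ∞) := by
  obtain ⟨n, hn⟩ := ENat.ne_top_iff_exists.1 hne
  have hAn : AnalyticAt ℂ F (m : ℂ) := hF.analyticAt _
  obtain ⟨g, hg, hg0, hev⟩ := (hAn.analyticOrderAt_eq_natCast (n := n)).1 hn.symm
  have hAc : (A : ℂ) ≠ 0 := by exact_mod_cast hA.ne'
  have hm0 : (0 : ℝ) < m := by exact_mod_cast hm
  have hmid : 2 * (m : ℂ) - m = m := by ring
  -- the two sides
  set L : ℂ → ℂ := fun s => (A : ℂ) ^ s * Complex.Gamma s * g s with hL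
  have hGam : ContinuousAt Complex.Gamma (m : ℂ) := by
    refine (Complex.differentiableAt_Gamma _ fun k h => ?_).continuousAt
    have h1 := congrArg Complex.re h
    rw [Complex.natCast_re, Complex.neg_re, Complex.natCast_re] at h1
    have h2 : (0 : ℝ) ≤ (k : ℝ) := Nat.cast_nonneg k
    linarith
  have hLc : ContinuousAt L (m : ℂ) := by
    refine ContinuousAt.mul (ContinuousAt.mul ?_ hGam) hg.continuousAt
    exact continuousAt_id.const_cpow (Or.inl hAc)
  have hsub : ContinuousAt (fun s : ℂ => 2 * (m : ℂ) - s) (m : ℂ) := by fun_prop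
  have hRc : ContinuousAt (fun s => L (2 * (m : ℂ) - s)) (m : ℂ) := by
    refine ContinuousAt.comp_of_eq hLc hsub hmid
  have hL0 : L (m : ℂ) ≠ 0 := by
    refine mul_ne_zero (mul_ne_zero ?_ ?_) hg0
    · rw [Complex.cpow_def_of_ne_zero hAc]
      exact Complex.exp_ne_zero _
    · exact Complex.Gamma_ne_zero_of_re_pos (by rw [Complex.natCast_re]; exact hm0)
  have hstrip : ∀ᶠ s : ℂ in 𝓝 (m : ℂ), 0 < s.re ∧ s.re < 2 * m := by
    have h1 : ContinuousAt Complex.re (m : ℂ) := Complex.continuous_re.continuousAt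
    refine (h1.eventually (lt_mem_nhds ?_)).and (h1.eventually (gt_mem_nhds ?_))
    · rw [Complex.natCast_re]; exact hm0
    · rw [Complex.natCast_re]; linarith
  have hev' : ∀ᶠ s : ℂ in 𝓝 (m : ℂ), F (2 * (m : ℂ) - s) =
      (2 * (m : ℂ) - s - m) ^ n • g (2 * (m : ℂ) - s) := by
    have h1 : Tendsto (fun s : ℂ => 2 * (m : ℂ) - s) (𝓝 (m : ℂ)) (𝓝 (m : ℂ)) := by
      have := hsub.tendsto
      rwa [hmid] at this
    exact h1.eventually hev
  have heq : ∀ᶠ s : ℂ in 𝓝[≠] (m : ℂ), L s = (-1) ^ n * L (2 * (m : ℂ) - s) := by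
    rw [eventually_nhdsWithin_iff]
    filter_upwards [hstrip, hev, hev'] with s h1 h2 h3 hs
    have hs0 : s - m ≠ 0 := sub_ne_zero.2 hs
    have h4 := hfe s h1.1 h1.2
    rw [h2, h3] at h4
    have h5 : (2 * (m : ℂ) - s - m) ^ n = (-1) ^ n * (s - m) ^ n := by
      rw [← mul_pow]
      congr 1
      ring
    rw [h5] at h4
    simp only [smul_eq_mul] at h4
    have h6 : (s - m) ^ n ≠ 0 := pow_ne_zero n hs0
    refine mul_left_cancel₀ h6 ?_
    simp only [hL]
    linear_combination h4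
  have hlim1 : Tendsto L (𝓝[≠] (m : ℂ)) (𝓝 (L m)) := hLc.tendsto.mono_left nhdsWithin_le_nhds
  have hlim2 : Tendsto L (𝓝[≠] (m : ℂ)) (𝓝 ((-1) ^ n * L m)) := by
    have h1 : Tendsto (fun s => (-1) ^ n * L (2 * (m : ℂ) - s)) (𝓝[≠] (m : ℂ))
        (𝓝 ((-1) ^ n * L (2 * (m : ℂ) - m))) :=
      (hRc.tendsto.mono_left nhdsWithin_le_nhds).const_mul _
    rw [hmid] at h1
    exact h1.congr' (heq.mono fun s hs => hs.symm)
  have h7 := tendsto_nhds_unique hlim1 hlim2
  have h8 : (-1 : ℂ) ^ n = 1 := by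
    refine mul_right_cancel₀ hL0 ?_
    rw [← h7, one_mul]
  have h9 : Even n := by
    by_contra h
    rw [Nat.not_even_iff_odd] at h
    rw [h.neg_one_pow] at h8
    norm_num at h8
  obtain ⟨r, hr⟩ := h9
  exact ⟨r, by rw [← hn, hr]; congr 1; ring⟩

end Pool.Agent.L0h74.PA
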