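import Pool.Agent.L0h75.PA.Stm
import Pool.Agent.L0h74.PA.EVO0
import Pool.Agent.TH936.CW.Odk

/-!
# PA, module EVO: for the root number `1` the order at the centre is even
-/

set_option autoImplicit false
set_option linter.unusedSectionVars false

namespace Pool.Agent.L0h74.PA

open Pool.Agent.Y698 Pool.Agent.Y698.SG Pool.Agent.L0h4.TW Pool.Agent.L0h75.EV
open Pool.Agent.W192.HK Pool.Agent.TH936.AC Pool.Agent.TH936.AW
open Pool.Agent.L0h75.PA

theorem t_EVO : S_EVO := by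
  intro m hm Q θ hc hcs ⟨μ, T, hsys, hW⟩
  obtain ⟨-, F, hFd, hFs, hFE, -⟩ := fe RR al qp m hm Q θ hc hcs {⊤} ⊤ μ T hsys 1 hW.symm
  refine ⟨F, hFd, hFs, ?_⟩
  have hcls := Pool.Agent.W571.HK.h_cls hbasic
  have hfpr := Pool.Agent.W366.HK.h_fpr hbasic hcls
  have hlat := Pool.Agent.W585.HK.h_lat hbasic
  have hker := Pool.Agent.W692.HK.h_ker hbasic hcls hfpr
  have hcnt := Pool.Agent.W584.HK.h_cnt hbasic hcls hfpr hlat hker
  have hdec := Pool.Agent.W856.HK.h_dec hbasic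
  have hgauss := Pool.Agent.W636.HK.h_gauss hbasic hfp
  have hpois := Pool.Agent.W348.HK.h_pois hbasic
  have htheta := Pool.Agent.TH936.HK.h_theta hbasic hfp hdec hgauss hpois hcnt
  have hnm : 0 < nm Q := by
    obtain ⟨-, -, b3, -⟩ := hbasic RR al qr
    linarith [b3 Q hc.ne]
  have hA : 0 < al.im * Real.sqrt (nm Q) / Real.pi :=
    div_pos (mul_pos qr.im (Real.sqrt_pos.2 hnm)) Real.pi_pos
  refine even_of hA hm hFd ?_ fun s h1 h2 => ?_
  · obtain ⟨e, rfl⟩ : ∃ e, m = e + 1 := ⟨m - 1, by omega⟩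
    obtain ⟨K, -, hord⟩ := Pool.Agent.TH936.CW.ordK_le hbasic hfp hcnt hgauss htheta hcls qr e
    exact (hord Q θ hc F hFd hFs).1
  · have := hFE s h1 h2
    rwa [one_mul] at this

end Pool.Agent.L0h74.PA
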