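import Pool.Agent.L0h75.PA.Stm

/-!
# PA, module ROOT: the root numbers of the twists
-/

set_option autoImplicit false
set_option linter.unusedSectionVars false

namespace Pool.Agent.L0h74.PA

open Pool.Agent.Y698 Pool.Agent.Y698.SG Pool.Agent.L0h4.TW Pool.Agent.L0h75.EV
open Pool.Agent.W192.HK Pool.Agent.TH936.AC Pool.Agent.TH936.AW
open Pool.Agent.L0h75.PA

lemma c4_sq (m : ℤ) : c4 m = 0 ∨ c4 m ^ 2 = 1 := by
  have h : ∀ x : ZMod 4, ZMod.χ₄ x = 0 ∨ ZMod.χ₄ x ^ 2 = 1 := by decide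
  unfold c4
  rcases h (m : ZMod 4) with h1 | h1
  · left; rw [h1]; norm_num
  · right; exact_mod_cast h1

lemma c8_sq (m : ℤ) : c8 m = 0 ∨ c8 m ^ 2 = 1 := by
  have h : ∀ x : ZMod 8, ZMod.χ₈ x = 0 ∨ ZMod.χ₈ x ^ 2 = 1 := by decide
  unfold c8
  rcases h (m : ZMod 8) with h1 | h1
  · left; rw [h1]; norm_num
  · right; exact_mod_cast h1

lemma c8'_sq (m : ℤ) : c8' m = 0 ∨ c8' m ^ 2 = 1 := by
  have h : ∀ x : ZMod 8, ZMod.χ₈' x = 0 ∨ ZMod.χ₈' x ^ 2 = 1 := by decide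
  unfold c8'
  rcases h (m : ZMod 8) with h1 | h1
  · left; rw [h1]; norm_num
  · right; exact_mod_cast h1

/-- the facts on the character at two -/
lemma two_facts {φ : ℤ → ℂ} {k : ℕ} {σ : ℤ} (h : Two φ k σ) :
    (∀ n, (starRingEnd ℂ) (φ n) = φ n) ∧ (∀ m n, φ (m * n) = φ m * φ n) ∧
    (∀ m : ℤ, m % 2 = 1 → φ m ^ 2 = 1) ∧ ((k = 0 ∧ φ = fun _ => 1) ∨ Tp φ k) := by
  have key : ∀ {φ : ℤ → ℂ} {k : ℕ}, Tp φ k → (∀ m, φ m = 0 ∨ φ m ^ 2 = 1) →
      (∀ n, (starRingEnd ℂ) (φ n) = φ n) ∧ (∀ m n, φ (m * n) = φ m * φ n) ∧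
      (∀ m : ℤ, m % 2 = 1 → φ m ^ 2 = 1) ∧ ((k = 0 ∧ φ = fun _ => 1) ∨ Tp φ k) := by
    intro φ k ht hs
    refine ⟨ht.conj, ht.mul, fun m hm => (hs m).resolve_left fun h0 => ?_, Or.inr ht⟩
    rw [ht.zero] at h0
    omega
  rcases h with ⟨rfl, rfl, -⟩ | ⟨rfl, rfl, -⟩ | ⟨rfl, rfl, -⟩ | ⟨rfl, rfl, -⟩
  · exact ⟨fun _ => map_one _, fun _ _ => (one_mul 1).symm, fun _ _ => one_pow 2,
      Or.inl ⟨rfl, rfl⟩⟩
  · exact key tp_c4 c4_sq
  · exact key tp_c8 c8_sq
  · exact key tp_c8' c8'_sq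

/-- the conductor -/
noncomputable def QQ (k : ℕ) (S : Finset ℕ) : Ideal RR :=
  sp (fR * ((2 ^ k * ∏ q ∈ S, q : ℕ) : RR))

lemma QQ_insert {k : ℕ} {S : Finset ℕ} {q : ℕ} (hq : q ∉ S) :
    QQ k S * sp (q : RR) = QQ k (insert q S) := by
  unfold QQ
  rw [Ideal.span_singleton_mul_span_singleton, Finset.prod_insert hq]
  congr 1
  push_cast
  ring_nf

lemma QQ_empty (k : ℕ) : QQ k ∅ = sp (fR * 2 ^ k) := by
  unfold QQ
  rw [Finset.prod_empty, mul_one]
  push_cast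
  rfl

lemma QQ_cop {k : ℕ} {S : Finset ℕ} (hS : ∀ p ∈ S, Pool.Agent.L0h4.TW.Od p) {q : ℕ}
    (hq : Pool.Agent.L0h4.TW.Od q) (hqS : q ∉ S) : IsCoprime (QQ k S) (sp (q : RR)) := by
  have hcop : Nat.Coprime (2 ^ k * ∏ p ∈ S, p) q := by
    refine Nat.Coprime.mul_left ?_ (Nat.Coprime.prod_left fun p hp => ?_)
    · refine Nat.Coprime.pow_left k ?_
      refine (Nat.coprime_primes Nat.prime_two hq.pr).2 fun h => ?_
      have := hq.odd
      omega
    · exact (Nat.coprime_primes (hS p hp).pr hq.pr).2 fun h => hqS (h ▸ hp)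
  have h1 : IsCoprime (((2 ^ k * ∏ p ∈ S, p : ℕ) : RR)) (q : RR) := cop_cast hcop
  have h2 : IsCoprime fR (q : RR) := by
    have h3 : IsCoprime ((7 : ℕ) : RR) ((q : ℕ) : RR) :=
      cop_cast ((Nat.coprime_primes (by norm_num) hq.pr).2 hq.n7.symm)
    have h4 : ((7 : ℕ) : RR) = fR * (-fR) := by
      have := fR_mul
      push_cast
      linear_combination this
    rw [h4] at h3
    exact h3.of_mul_left_left
  exact (Ideal.isCoprime_span_singleton_iff _ _).2 (h2.mul_left h1)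

lemma nI_QQ (k : ℕ) (S : Finset ℕ) : nI (QQ k S) = 7 * (2 ^ k * ∏ q ∈ S, q) ^ 2 := by
  unfold QQ
  rw [nI_sp, nR_mul, nR_fR, nR_nat, Int.natAbs_mul]
  congr 1

lemma qch_sq {q : ℕ} (hq : q.Prime) {n : ℤ} (h : ¬ (q : ℤ) ∣ n) : qch q n ^ 2 = 1 := by
  rcases qch_val hq n with ⟨h1, -⟩ | ⟨-, h1 | h1⟩
  · exact absurd h1 h
  · rw [h1]; norm_num
  · rw [h1]; norm_num

/-- the power of the character at the rational primes -/
lemma psiM_q {m : ℕ} (hm : 1 ≤ m) {q : ℕ} (hq : Pool.Agent.L0h4.TW.Od q) :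
    psiM m (sp (q : RR)) / (q : ℂ) ^ (2 * m - 1) = ((jacobiSym q 7 : ℤ) : ℂ) := by
  have hq0 : (q : ℂ) ^ (2 * m - 1) ≠ 0 := pow_ne_zero _ (by exact_mod_cast hq.pr.ne_zero)
  have h1 : e7 (q : RR) = ((jacobiSym q 7 : ℤ) : ℂ) := by
    unfold e7
    rw [map_natCast, ← jacobiSym.legendreSym.to_jacobiSym]
    unfold legendreSym
    push_cast
    rfl
  have h2 : ((jacobiSym q 7 : ℤ) : ℂ) ^ 2 = 1 := by
    have h3 : Int.gcd (q : ℤ) (7 : ℕ) = 1 := by
      have := (Nat.coprime_primes hq.pr (by norm_num : Nat.Prime 7)).2 hq.n7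
      exact_mod_cast this
    rcases jacobiSym.eq_one_or_neg_one h3 with h4 | h4
    · rw [h4]; norm_num
    · rw [h4]; norm_num
  unfold psiM
  rw [psi_sp, h1, mul_pow]
  have e : (((q : RR) : RR) : ℂ) = (q : ℂ) := by push_cast; rfl
  rw [e, mul_div_assoc, div_self hq0, mul_one]
  obtain ⟨r, hr⟩ : ∃ r, 2 * m - 1 = 2 * r + 1 := ⟨m - 1, by omega⟩
  rw [hr, pow_succ, pow_mul, h2, one_pow, one_mul]

/-- the character of the norm: ring class character -/
lemma rg_q {q : ℕ} (hq : Pool.Agent.L0h4.TW.Od q) : RG q (fun I : Ideal RR => qch q (nI I)) := by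
  have h := quad_HCX hq
  refine ⟨hq.pr, ⟨h.ne, h.mul, h.zero, fun α h0 h1 => ?_⟩, fun n hn => ?_⟩
  · have := h.princ α h0 h1
    rwa [pow_zero] at this
  · show qch q ((nI (sp ((n : ℕ) : RR)) : ℕ) : ℤ) = 1
    rw [nI_sp', nR_nat, sq, qch_mul, ← sq]
    refine qch_sq hq.pr fun hd => ?_
    have hd' : q ∣ n := by exact_mod_cast hd
    have h3 := Nat.dvd_gcd hd' dvd_rfl
    rw [hn] at h3
    exact hq.pr.one_lt.ne' (Nat.dvd_one.1 h3)

lemma od_q {q : ℕ} (hq : Pool.Agent.L0h4.TW.Od q) :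
    Pool.Agent.W192.HK.Od (fun I : Ideal RR => qch q (nI I)) 2 := by
  have h := quad_HCX hq
  refine ⟨two_pos, fun I hI => ?_, fun n hn hall => ?_⟩
  · rcases qch_val hq.pr ((nI I : ℕ) : ℤ) with ⟨-, h1⟩ | ⟨-, h1 | h1⟩
    · exact absurd h1 hI
    · show qch q _ ^ 2 = 1
      rw [h1]; norm_num
    · show qch q _ ^ 2 = 1
      rw [h1]; norm_num
  · by_contra hlt
    have hn1 : n = 1 := by omega
    subst hn1
    have hne : sp (q : RR) < ⊤ := by
      rw [lt_top_iff_ne_top, Ne, Ideal.span_singleton_eq_top]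
      intro hu
      have h1 := isUnit_nR hu
      rw [nR_nat] at h1
      have h2 : q ^ 2 = 1 := by exact_mod_cast h1
      have h3 := hq.pr.two_le
      nlinarith
    obtain ⟨α, h0, -, hc, hne'⟩ := h.prim ⊤ hne
    apply hne'
    rw [pow_zero]
    have h1 : qch q (nI (sp α)) ≠ 0 := by
      intro h2
      rcases (h.zero (sp α)).1 h2 with h3 | h3
      · exact h0 (by rwa [Ideal.span_singleton_eq_bot] at h3)
      · exact h3 hc
    have h2 := hall (sp α) h1
    rwa [pow_one] at h2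

lemma pw_one (χ : Ideal RR → ℂ) : pw χ 1 = χ := by
  funext I
  unfold pw
  split_ifs with h
  · exact h.symm
  · exact pow_one _

theorem t_ROOT : S_HCM → S_CSX → S_UNI → S_G7 → Pool.Agent.L0h75.PA.S_REC → S_ROOT := by
  intro hcm csx uni g7 rec m hm φ k σ hφ S hS
  obtain ⟨f1, f2, f3, f4⟩ := two_facts hφ
  suffices H : ∀ S : Finset ℕ, (∀ q ∈ S, Pool.Agent.L0h4.TW.Od q) →
      HC (2 * m - 1) (QQ k S) (thX m φ S) ∧ CS (thX m φ S) ∧
      ∃ (μ : RR) (T : Finset RR), Sys (QQ k S) {⊤} ⊤ μ T ∧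
        Wc al m (QQ k S) ⊤ μ T (thX m φ S) =
          (-1) ^ (m - 1) * (σ : ℂ) * ((∏ q ∈ S, sg4 q : ℤ) : ℂ) by
    exact ⟨_, H S hS⟩
  classical
  intro S
  induction S using Finset.induction_on with
  | empty =>
    intro _
    have e : thX m φ ∅ = fun I => psiM m I * φ (nI I) := by
      funext I
      unfold thX
      rw [Finset.prod_empty, mul_one]
    obtain ⟨T, hT, hW⟩ := g7 m hm φ k σ hφ
    obtain ⟨hc, hcs⟩ := hcm m hm
    rw [e, QQ_empty]
    refine ⟨?_, ?_, _, T, hT, ?_⟩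
    · rcases f4 with ⟨rfl, rfl⟩ | ht
      · rw [pow_zero, mul_one]
        convert hc using 1
        funext I
        exact mul_one _
      · have h1 := hprod RR al qr (2 * m - 1) (sp fR) (sp ((2 ^ k : ℕ) : RR)) (psiM m)
          (fun I => φ (nI I)) hc ht.hc ?_
        · rw [Ideal.span_singleton_mul_span_singleton] at h1
          convert h1 using 2
          push_cast
          rfl
        · refine (Ideal.isCoprime_span_singleton_iff _ _).2 ?_
          have h3 : IsCoprime ((7 : ℕ) : RR) ((2 ^ k : ℕ) : RR) :=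
            cop_cast (Nat.Coprime.pow_right k (by norm_num))
          have h4 : ((7 : ℕ) : RR) = fR * (-fR) := by
            have := fR_mul
            push_cast
            linear_combination this
          rw [h4] at h3
          exact h3.of_mul_left_left
    · intro I
      show psiM m (bar I) * φ (nI (bar I)) = (starRingEnd ℂ) (psiM m I * φ (nI I))
      rw [map_mul, ← hcs I]
      congr 1
      exact csx φ f1 I
    · rw [hW, Finset.prod_empty]
      norm_num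
  | insert q S hq ih =>
    intro hS'
    have hS : ∀ p ∈ S, Pool.Agent.L0h4.TW.Od p := fun p hp => hS' p (Finset.mem_insert_of_mem hp)
    have hq' := hS' q (Finset.mem_insert_self q S)
    obtain ⟨hc, hcs, μ, T, hsys, hW⟩ := ih hS
    have hcop := QQ_cop (k := k) hS hq' hq
    have e : thX m φ (insert q S) = fun I => thX m φ S I * qch q (nI I) := by
      funext I
      unfold thX
      rw [Finset.prod_insert hq]
      ring
    rw [e, ← QQ_insert hq]
    refine ⟨hprod RR al qr (2 * m - 1) _ _ _ _ hc (quad_HCX hq') hcop, ?_, ?_⟩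
    · intro I
      show thX m φ S (bar I) * qch q (nI (bar I)) = (starRingEnd ℂ) (thX m φ S I * qch q (nI I))
      rw [map_mul, ← hcs I]
      congr 1
      exact csx (qch q) (qch_conj q) I
    · obtain ⟨μ', T1, hs1, H1⟩ := wc RR al qp m hm _ _ hc hcs
      obtain ⟨T2, hs2, H2⟩ := H1 q hq'.pr hcop _ (quad_HCX hq') (rg_q hq') 2 (od_q hq')
      refine ⟨_, T2, hs2, ?_⟩
      have h3 := H2 1 (Nat.coprime_one_left 2)
      rw [pw_one] at h3
      rw [h3, uni m hm _ _ hc μ' μ T1 T hs1 hsys, hW, Finset.prod_insert hq]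
      have h4 : thX m φ S (sp (q : RR)) / (q : ℂ) ^ (2 * m - 1) = ((jacobiSym q 7 : ℤ) : ℂ) := by
        unfold thX
        have h5 : φ ((nI (sp (q : RR)) : ℕ) : ℤ) = 1 := by
          rw [nI_sp', nR_nat, sq, f2, ← sq]
          exact f3 _ (by have := hq'.odd; omega)
        have h6 : ∏ p ∈ S, qch p ((nI (sp (q : RR)) : ℕ) : ℤ) = 1 := by
          refine Finset.prod_eq_one fun p hp => ?_
          rw [nI_sp', nR_nat, sq, qch_mul, ← sq]
          refine qch_sq (hS p hp).pr fun hd => ?_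
          have hd' : p ∣ q := by exact_mod_cast hd
          exact hq (((Nat.prime_dvd_prime_iff_eq (hS p hp).pr hq'.pr).1 hd') ▸ hp)
        rw [h5, h6, mul_one, mul_one]
        exact psiM_q hm hq'
      have h7 : qch q ((nI (QQ k S) : ℕ) : ℤ) = ((jacobiSym 7 q : ℤ) : ℂ) := by
        rw [nI_QQ]
        push_cast
        rw [qch_mul, sq, qch_mul, ← sq, qch_sq hq'.pr, mul_one]
        · rfl
        · intro hd
          have hd' : q ∣ 2 ^ k * ∏ p ∈ S, p := by
            rw [← Int.natCast_dvd_natCast]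
            push_cast
            exact hd
          rcases (Nat.Prime.dvd_mul hq'.pr).1 hd' with h8 | h8
          · have h9 := (Nat.prime_dvd_prime_iff_eq hq'.pr Nat.prime_two).1
              (hq'.pr.dvd_of_dvd_pow h8)
            have := hq'.odd
            omega
          · obtain ⟨p, hp, h9⟩ := (hq'.pr.prime.dvd_finsetProd_iff _).1 h8
            exact hq (((Nat.prime_dvd_prime_iff_eq hq'.pr (hS p hp).pr).1 h9) ▸ hp)
      have h8 := rec q hq'
      rw [h4, h7]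
      have h9 : ((jacobiSym q 7 : ℤ) : ℂ) * ((jacobiSym 7 q : ℤ) : ℂ) = ((sg4 q : ℤ) : ℂ) := by
        exact_mod_cast h8
      push_cast
      linear_combination ((-1) ^ (m - 1) * (σ : ℂ) * ∏ p ∈ S, (sg4 p : ℂ)) * h9

end Pool.Agent.L0h74.PA
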